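import Pool.Agent.Lib.MP_8effdd_an.Own
import Pool.Agent.Lib.MP_8effdd_an.CM.Final2

/-!
# A closed set that is not CNED and is always mapped onto a null set

In `ℝ³` there is a closed set `E` that is not CNED, such that every homeomorphism of `ℝ³` that is
quasiconformal in the complement of `E` maps `E` onto a set of Lebesgue measure zero.
-/

set_option autoImplicit false

open MeasureTheory Filter Topology CnedDefs

open scoped ENNReal

namespace Pool.Agent.Results.MP_8effdd_an.NonCnedNull

open Pool.Agent.Lib.MP_8effdd_an.CM in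
theorem result : ∃ E : Set (Eu 3), IsClosed E ∧ ¬ IsCNED E ∧
    ∀ f : Eu 3 ≃ₜ Eu 3, QCOn f Eᶜ → volume (f '' E) = 0 := by
  refine ⟨EE, EE_closed, ?_, ?_⟩
  · intro h
    have hdis : Disjoint (cube 0 1) (cube far 1) := by
      rw [Set.disjoint_left]
      intro x h1 h2
      have := cubes_far h1 h2
      rw [dist_self] at this
      linarith
    have h1 := h (cube 0 1) (cube far 1) (cube_compact _ _) (cube_connected _ zero_le_one)
      (cube_compact _ _) (cube_connected _ zero_le_one) hdis
    have h2 : modn (joining (cube 0 1) (cube far 1) ∩ Fsigma EE) = 0 := by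
      rw [← not_cned]
      unfold modn
      refine iInf_congr fun ρ => iInf_congr fun hρ => iInf_congr_Prop ?_ fun _ => rfl
      constructor
      · intro H γ c0 c1 c2 c3 hr hm
        exact H γ ⟨⟨c0, c1, c2⟩, c3⟩ hr
      · intro H γ hγ hr
        exact H γ hγ.1.1 hγ.1.2.1 hγ.1.2.2 hγ.2 hr (arc_mono γ hr)
    have h3 : modn (joining (cube 0 1) (cube far 1)) ≠ 0 := by
      refine ne_of_eq_of_ne ?_ mod_pos
      unfold modn
      refine iInf_congr fun ρ => iInf_congr fun hρ => iInf_congr_Prop ?_ fun _ => rfl
      constructor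
      · intro H γ c0 c1 c2 hr hm
        exact H γ ⟨c0, c1, c2⟩ hr
      · intro H γ hγ hr
        exact H γ hγ.1 hγ.2.1 hγ.2.2 hr (arc_mono γ hr)
    exact h3 (h1.trans h2)
  · rintro f ⟨H, hH⟩
    exact image_null f (H := H) hH

end Pool.Agent.Results.MP_8effdd_an.NonCnedNull
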